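import Pool.Agent.W541.DL.Stm

/-!
# MP_cd6101_pr: DL-SCB, shift of lines, shift of time and Brownian scaling
-/
set_option autoImplicit false
open MeasureTheory ProbabilityTheory Filter Topology

namespace Pool.Agent.W571.DL.SCB

open Pool.Agent.W541.DL

theorem main : S_SCB := by
  intro Ω _ P W a s d hW hd
  have hL : ∀ k t, MemLp (W k t) 2 P := fun k t =>
    (hW.gauss.hasGaussianLaw_eval ((k, t) : ℕ × ℝ)).memLp_two
  have hI : ∀ k t, Integrable (W k t) P := fun k t =>
    (hW.gauss.hasGaussianLaw_eval ((k, t) : ℕ × ℝ)).integrable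
  have hII : ∀ k t j u, Integrable (fun ω => W k t ω * W j u ω) P := fun k t j u =>
    (hL k t).integrable_mul (hL j u)
  refine ⟨?_, ?_, ?_, ?_, ?_⟩
  · intro k t
    exact ((hW.meas (a + k) (s + d * t)).sub (hW.meas (a + k) s)).div_const _
  · intro k ω
    have := hW.cont (a + k) ω
    exact ((this.comp (by fun_prop : Continuous fun t : ℝ => s + d * t)).sub
      continuous_const).div_const _
  · classical
    refine hW.gauss.of_isGaussianProcess fun p => ?_
    refine ⟨{(a + p.1, s + d * p.2), (a + p.1, s)},
      { toFun := fun x => (x ⟨(a + p.1, s + d * p.2), by simp⟩ - x ⟨(a + p.1, s), by simp⟩) /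
          Real.sqrt d
        map_add' := fun x y => by simp only [Pi.add_apply]; ring
        map_smul' := fun c x => by simp only [Pi.smul_apply, smul_eq_mul, RingHom.id_apply]; ring
        cont := by fun_prop }, fun ω => rfl⟩
  · intro k t
    rw [integral_div, integral_sub (hI _ _) (hI _ _), hW.mean, hW.mean]
    simp
  · intro j k t u
    have e : ∀ ω, (W (a + j) (s + d * t) ω - W (a + j) s ω) / Real.sqrt d *
        ((W (a + k) (s + d * u) ω - W (a + k) s ω) / Real.sqrt d) =
        ((W (a + j) (s + d * t) ω * W (a + k) (s + d * u) ω -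
          W (a + j) (s + d * t) ω * W (a + k) s ω) -
         (W (a + j) s ω * W (a + k) (s + d * u) ω - W (a + j) s ω * W (a + k) s ω)) / d := by
      intro ω
      rw [div_mul_div_comm, Real.mul_self_sqrt hd.le]
      congr 1
      ring
    simp_rw [e]
    rw [integral_div, integral_sub, integral_sub (hII _ _ _ _) (hII _ _ _ _),
      integral_sub (hII _ _ _ _) (hII _ _ _ _), hW.cov, hW.cov, hW.cov, hW.cov]
    · by_cases hjk : j = k
      · subst hjk
        simp only [if_true]
        rw [div_eq_iff hd.ne']
        have a1 : s + d * t - (s + d * u) = d * (t - u) := by ring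
        have a2 : s + d * t - s = d * t := by ring
        have a3 : s - (s + d * u) = -(d * u) := by ring
        rw [a1, a2, a3, sub_self, abs_neg, abs_mul, abs_mul, abs_mul, abs_of_pos hd, abs_zero]
        ring
      · have hjk' : a + j ≠ a + k := by omega
        simp [hjk, hjk']
    · exact (hII _ _ _ _).sub (hII _ _ _ _)
    · exact (hII _ _ _ _).sub (hII _ _ _ _)

end Pool.Agent.W571.DL.SCB
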