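import Pool.Agent.W541.DL.Stm

/-!
# MP_cd6101_pr: DL-SPLIT, a path through a point splits
-/
set_option autoImplicit false
open MeasureTheory ProbabilityTheory Filter Topology

namespace Pool.Agent.W571.DL.SPLIT

open Pool.Agent.W541.DL

theorem main (hB : S_BDD) : S_SPLIT := by
  intro w n j τ p hw hτ hj h1 h2
  obtain ⟨m, rfl⟩ := Nat.exists_eq_add_of_lt hj
  have hnj : j + m + 1 - j = m + 1 := by omega
  rw [hnj]
  -- the two pieces
  have hσ : pathVal w (j + 1) (fun k => min (τ k) p) ≤ blpp w (j + 1) (τ 0) p := by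
    refine le_csSup (hB w (j + 1) (τ 0) p hw) ⟨_, ⟨?_, ?_, ?_⟩, rfl⟩
    · intro a b hab
      exact min_le_min (hτ hab) le_rfl
    · exact min_eq_left (le_trans (hτ (Nat.zero_le j)) h1)
    · exact min_eq_right h2
  have hρ : pathVal (fun k => w (j + k)) (m + 1) (fun k => max (τ (j + k)) p) ≤
      blpp (fun k => w (j + k)) (m + 1) p (τ (j + m + 1)) := by
    refine le_csSup (hB (fun k => w (j + k)) (m + 1) p (τ (j + m + 1)) (fun k => hw (j + k)))
      ⟨_, ⟨?_, ?_, ?_⟩, rfl⟩
    · intro a b hab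
      exact max_le_max (hτ (by omega)) le_rfl
    · exact max_eq_right h1
    · show max (τ (j + (m + 1))) p = τ (j + m + 1)
      exact max_eq_left (le_trans h2 (hτ (by omega)))
  refine le_trans (le_of_eq ?_) (add_le_add hσ hρ)
  have e1 : pathVal w (j + m + 1) τ = (∑ k ∈ Finset.range j, (w k (τ (k + 1)) - w k (τ k))) +
      ((w j (τ (j + 1)) - w j (τ j)) +
        ∑ k ∈ Finset.range m, (w (j + (k + 1)) (τ (j + (k + 1) + 1)) - w (j + (k + 1)) (τ (j + (k + 1))))) := by
    unfold pathVal
    rw [show j + m + 1 = j + (m + 1) from by ring, Finset.sum_range_add, Finset.sum_range_succ']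
    simp only [add_zero]
    ring
  have e2 : pathVal w (j + 1) (fun k => min (τ k) p) =
      (∑ k ∈ Finset.range j, (w k (τ (k + 1)) - w k (τ k))) + (w j p - w j (τ j)) := by
    unfold pathVal
    rw [Finset.sum_range_succ]
    simp only
    rw [min_eq_right h2, min_eq_left h1]
    congr 1
    refine Finset.sum_congr rfl fun k hk => ?_
    rw [Finset.mem_range] at hk
    rw [min_eq_left (le_trans (hτ (by omega : k + 1 ≤ j)) h1),
      min_eq_left (le_trans (hτ (by omega : k ≤ j)) h1)]
  have e3 : pathVal (fun k => w (j + k)) (m + 1) (fun k => max (τ (j + k)) p) =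
      (∑ k ∈ Finset.range m, (w (j + (k + 1)) (τ (j + (k + 1) + 1)) - w (j + (k + 1)) (τ (j + (k + 1))))) +
      (w j (τ (j + 1)) - w j p) := by
    unfold pathVal
    rw [Finset.sum_range_succ']
    simp only [add_zero, zero_add]
    rw [max_eq_left h2, max_eq_right h1]
    congr 1
    refine Finset.sum_congr rfl fun k _ => ?_
    rw [max_eq_left (le_trans h2 (hτ (by omega : j + 1 ≤ j + (k + 1 + 1)))),
      max_eq_left (le_trans h2 (hτ (by omega : j + 1 ≤ j + (k + 1))))]
    rfl
  rw [e1, e2, e3]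
  ring

end Pool.Agent.W571.DL.SPLIT
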